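import Pool.Agent.Lib.MP_b2e5b9_co.Defs

/-!
# Hyperplanes with unit normal and offset: basic facts
-/

set_option autoImplicit false

open scoped RealInnerProductSpace

namespace HyperplaneTransversals

variable {d : ℕ}

theorem unit_inner_self (u : Metric.sphere (0 : E d) 1) : ⟪(u : E d), (u : E d)⟫ = 1 := by
  have h : ‖(u : E d)‖ = 1 := by simp
  rw [real_inner_self_eq_norm_sq, h, one_pow]

theorem mem_hyperplane (p : Metric.sphere (0 : E d) 1 × ℝ) (x : E d) :
    x ∈ hyperplane p ↔ ⟪(p.1 : E d), x⟫ = p.2 := by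
  unfold hyperplane
  rw [AffineSubspace.mem_mk', vsub_eq_sub, Submodule.mem_orthogonal_singleton_iff_inner_right,
    inner_sub_right, inner_smul_right, unit_inner_self, mul_one, sub_eq_zero]

/-- A hyperplane determines its unit normal and offset up to a common sign. -/
theorem hyperplane_eq_iff (p q : Metric.sphere (0 : E d) 1 × ℝ) (h : hyperplane p = hyperplane q) :
    ((q.1 : E d) = p.1 ∧ q.2 = p.2) ∨ ((q.1 : E d) = -p.1 ∧ q.2 = -p.2) := by
  have hmem : ∀ x : E d, ⟪(p.1 : E d), x⟫ = p.2 → ⟪(q.1 : E d), x⟫ = q.2 := by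
    intro x hx
    rw [← mem_hyperplane, ← h, mem_hyperplane]
    exact hx
  have h0 : ⟪(q.1 : E d), p.2 • (p.1 : E d)⟫ = q.2 := by
    apply hmem
    rw [inner_smul_right, unit_inner_self, mul_one]
  -- `q.1 - ⟪p.1, q.1⟫ p.1` is orthogonal to `p.1`
  set c : ℝ := ⟪(p.1 : E d), (q.1 : E d)⟫ with hc
  have h1 : ⟪(q.1 : E d), p.2 • (p.1 : E d) + ((q.1 : E d) - c • (p.1 : E d))⟫ = q.2 := by
    apply hmem
    rw [inner_add_right, inner_smul_right, unit_inner_self, inner_sub_right, inner_smul_right,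
      unit_inner_self, ← hc]
    ring
  rw [inner_add_right, h0, inner_sub_right, unit_inner_self, inner_smul_right,
    real_inner_comm (p.1 : E d) (q.1 : E d), ← hc] at h1
  have h2 : c = 1 ∨ c = -1 := by
    have : (c - 1) * (c + 1) = 0 := by linarith
    rcases mul_eq_zero.1 this with h | h
    · left; linarith
    · right; linarith
  rw [inner_smul_right, real_inner_comm, ← hc] at h0
  have hpn : ‖(p.1 : E d)‖ = 1 := by simp
  have hqn : ‖(q.1 : E d)‖ = 1 := by simp
  rcases h2 with h2 | h2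
  · left
    refine ⟨?_, by rw [← h0, h2]; ring⟩
    have := (inner_eq_one_iff_of_norm_eq_one (𝕜 := ℝ) hpn hqn).1 (by rw [← hc, h2])
    exact this.symm
  · right
    refine ⟨?_, by rw [← h0, h2]; ring⟩
    have h3 : ⟪(p.1 : E d), -(q.1 : E d)⟫ = 1 := by
      rw [inner_neg_right, ← hc, h2]
      ring
    have := (inner_eq_one_iff_of_norm_eq_one (𝕜 := ℝ) hpn (by rw [norm_neg]; exact hqn)).1 h3
    rw [this, neg_neg]

/-- The hyperplane `{x | ⟪v, x⟫ = s}` for a nonzero vector `v`. -/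
theorem exists_hyperplane (v : E d) (hv : v ≠ 0) (s : ℝ) :
    ∃ p : Metric.sphere (0 : E d) 1 × ℝ, (∀ x, x ∈ hyperplane p ↔ ⟪v, x⟫ = s) ∧
      (p.1 : E d) = ‖v‖⁻¹ • v ∧ p.2 = ‖v‖⁻¹ * s := by
  have hn : ‖v‖ ≠ 0 := norm_ne_zero_iff.2 hv
  refine ⟨⟨⟨‖v‖⁻¹ • v, ?_⟩, ‖v‖⁻¹ * s⟩, ?_, rfl, rfl⟩
  · simp [norm_smul, hn]
  · intro x
    rw [mem_hyperplane]
    simp only [real_inner_smul_left]
    constructor
    · intro h
      exact mul_left_cancel₀ (inv_ne_zero hn) h
    · intro h
      rw [h]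

/-- Images of closed sets of pairs are closed sets of hyperplanes. -/
theorem isClosed_image (R : Set (Metric.sphere (0 : E d) 1 × ℝ)) (hR : IsClosed R) :
    IsClosed {H : Hyp d | ∃ p ∈ R, hyperplane p = H.flat} := by
  have h : (Hyp.of (d := d)) ⁻¹' {H : Hyp d | ∃ p ∈ R, hyperplane p = H.flat}
      = R ∪ (fun p : Metric.sphere (0 : E d) 1 × ℝ => (-p.1, -p.2)) ⁻¹' R := by
    ext q
    simp only [Set.mem_preimage, Set.mem_ofPred_eq, Set.mem_union, Hyp.of]
    constructor
    · rintro ⟨p, hp, he⟩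
      rcases hyperplane_eq_iff p q he with ⟨h1, h2⟩ | ⟨h1, h2⟩
      · left
        have : q = p := Prod.ext (Subtype.ext h1) h2
        rwa [this]
      · right
        have : ((-q.1, -q.2) : Metric.sphere (0 : E d) 1 × ℝ) = p := by
          refine Prod.ext (Subtype.ext ?_) ?_
          · change -(q.1 : E d) = p.1
            rw [h1, neg_neg]
          · change -q.2 = p.2
            rw [h2, neg_neg]
        rwa [this]
    · rintro (hq | hq)
      · exact ⟨q, hq, rfl⟩
      · refine ⟨(-q.1, -q.2), hq, ?_⟩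
        ext x
        rw [mem_hyperplane, mem_hyperplane]
        change ⟪-(q.1 : E d), x⟫ = -q.2 ↔ _
        rw [inner_neg_left, neg_inj]
  have h3 : IsClosed ((Hyp.of (d := d)) ⁻¹' {H : Hyp d | ∃ p ∈ R, hyperplane p = H.flat}) := by
    rw [h]
    refine hR.union (hR.preimage ?_)
    fun_prop
  exact isClosed_coinduced.2 h3

end HyperplaneTransversals
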