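import Mathlib

/-!
# Hyperplane transversals of families of convex sets: definitions
-/

set_option autoImplicit false

open scoped RealInnerProductSpace

namespace HyperplaneTransversals

/-- Euclidean `d`-space. -/
abbrev E (d : ℕ) : Type := EuclideanSpace ℝ (Fin d)

/-- The affine hyperplane `{x | ⟪u, x⟫ = t}` with unit normal `u = p.1` and offset `t = p.2`
(it passes through `t • u` and its direction is the orthogonal complement of `u`). -/
noncomputable def hyperplane {d : ℕ} (p : Metric.sphere (0 : E d) 1 × ℝ) :
    AffineSubspace ℝ (E d) :=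
  AffineSubspace.mk' (p.2 • (p.1 : E d)) (ℝ ∙ (p.1 : E d))ᗮ

/-- The set of all affine hyperplanes of `E d`. -/
structure Hyp (d : ℕ) where
  /-- the underlying affine subspace -/
  flat : AffineSubspace ℝ (E d)
  isHyperplane : ∃ p, hyperplane p = flat

/-- The affine hyperplane with unit normal `p.1` and offset `p.2`, as a point of `Hyp d`. -/
noncomputable def Hyp.of {d : ℕ} (p : Metric.sphere (0 : E d) 1 × ℝ) : Hyp d :=
  ⟨hyperplane p, p, rfl⟩

/-- The usual topology on the space of affine hyperplanes: the quotient topology coming from the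
pairs (unit normal, offset). -/
noncomputable instance (d : ℕ) : TopologicalSpace (Hyp d) :=
  TopologicalSpace.coinduced Hyp.of inferInstance

/-- `L` is an affine `k`-flat. -/
def IsFlat {d : ℕ} (k : ℕ) (L : AffineSubspace ℝ (E d)) : Prop :=
  (L : Set (E d)).Nonempty ∧ Module.finrank ℝ L.direction = k

/-- The family `A` is `j`-separated: no `j + 2` of its members have a common `j`-transversal. -/
def Separated {d n : ℕ} (j : ℕ) (A : Fin n → Set (E d)) : Prop :=
  ∀ s : Finset (Fin n), s.card = j + 2 →
    ¬ ∃ L : AffineSubspace ℝ (E d), IsFlat j L ∧ ∀ i ∈ s, ((L : Set (E d)) ∩ A i).Nonempty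

/-- The space `T` of all hyperplane transversals of the family `A`. -/
def transversals {d n : ℕ} (A : Fin n → Set (E d)) : Set (Hyp d) :=
  {H | ∀ i, ((H.flat : Set (E d)) ∩ A i).Nonempty}

/-- The hyperplane `H` supports (is tangent to) the set `A`: it meets `A`, and `A` lies in one of
the two closed half-spaces bounded by `H`. If `proper` holds, then hyperplanes that contain `A`
are not counted as supporting `A`. -/
def Supports {d : ℕ} (proper : Prop) (H : AffineSubspace ℝ (E d)) (A : Set (E d)) : Prop :=
  ((H : Set (E d)) ∩ A).Nonempty ∧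
    (∃ p : Metric.sphere (0 : E d) 1 × ℝ, hyperplane p = H ∧ ∀ x ∈ A, ⟪(p.1 : E d), x⟫ ≤ p.2) ∧
    (proper → ¬ A ⊆ H)

/-- The hyperplane transversals of `A` that support exactly the members `A i`, `i ∈ S`. -/
def stratum {d n : ℕ} (proper : Prop) (A : Fin n → Set (E d)) (S : Set (Fin n)) : Set (Hyp d) :=
  {H | H ∈ transversals A ∧ ∀ i, Supports proper H.flat (A i) ↔ i ∈ S}

/-- The topological faces of the space of hyperplane transversals: the connected components of
the strata. -/
def faces {d n : ℕ} (proper : Prop) (A : Fin n → Set (E d)) : Set (Set (Hyp d)) :=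
  {F | ∃ S : Set (Fin n), ∃ H ∈ stratum proper A S,
    F = connectedComponentIn (stratum proper A S) H}

end HyperplaneTransversals
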