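import Pool.Agent.Lib.MP_b2e5b9_co.Separated

/-!
# Infinitely many faces
-/

set_option autoImplicit false

open scoped RealInnerProductSpace

namespace HyperplaneTransversals

/-- the `k`-th node -/
noncomputable def node (k : ℕ) : ℝ := 1 / (400 * ((k : ℝ) + 1))

theorem node_mem (k : ℕ) : node k ∈ nodes := Or.inr ⟨k, rfl⟩

theorem node_pos (k : ℕ) : 0 < node k := by
  unfold node
  positivity

theorem node_anti {k l : ℕ} (h : k ≤ l) : node l ≤ node k := by
  unfold node
  apply one_div_le_one_div_of_le (by positivity)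
  have : (k : ℝ) ≤ l := by exact_mod_cast h
  linarith

theorem node_lt (k : ℕ) : node (k + 1) < node k := by
  unfold node
  apply one_div_lt_one_div_of_lt (by positivity)
  push_cast
  linarith

/-- the midpoint between two nodes -/
noncomputable def mid (k : ℕ) : ℝ := (node k + node (k + 1)) / 2

/-- half the distance of two nodes -/
noncomputable def gap (k : ℕ) : ℝ := (node k - node (k + 1)) / 2

theorem gap_pos (k : ℕ) : 0 < gap k := by
  have := node_lt k
  unfold gap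
  linarith

theorem mid_bounds (k : ℕ) : 0 < mid k ∧ mid k ≤ 1 / 400 := by
  have h1 := node_pos k
  have h2 := node_pos (k + 1)
  have h3 := (nodes_bounds (node_mem k)).2
  have h4 := (nodes_bounds (node_mem (k + 1))).2
  unfold mid
  constructor <;> linarith

theorem gap_le (k : ℕ) : gap k ≤ 1 / 400 := by
  have h2 := node_pos (k + 1)
  have h3 := (nodes_bounds (node_mem k)).2
  unfold gap
  linarith

theorem gap_le_mid (k : ℕ) : gap k ≤ mid k := by
  have h2 := node_pos (k + 1)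
  unfold gap mid
  linarith

/-- all nodes have distance at least `gap k` from `mid k` -/
theorem gap_sq_le {k : ℕ} {p : ℝ} (hp : p ∈ nodes) : gap k ^ 2 ≤ (mid k - p) ^ 2 := by
  have hg := gap_pos k
  rcases hp with rfl | ⟨j, rfl⟩
  · have h2 := gap_le_mid k
    nlinarith
  · change gap k ^ 2 ≤ (mid k - node j) ^ 2
    rcases le_or_gt j k with h | h
    · have h1 := node_anti h
      have : gap k ≤ node j - mid k := by
        unfold gap mid
        linarith
      nlinarith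
    · have h1 := node_anti (show k + 1 ≤ j by omega)
      have : gap k ≤ mid k - node j := by
        unfold gap mid
        linarith
      nlinarith

theorem supports_not_of_cross {d : ℕ} {proper : Prop} {A : Set (E d)}
    {p : Metric.sphere (0 : E d) 1 × ℝ} {x y : E d} (hx : x ∈ A) (hy : y ∈ A)
    (h1 : ⟪(p.1 : E d), x⟫ < p.2) (h2 : p.2 < ⟪(p.1 : E d), y⟫) :
    ¬ Supports proper (hyperplane p) A := by
  rintro ⟨-, ⟨q, hq, hle⟩, -⟩
  rcases hyperplane_eq_iff p q hq.symm with ⟨e1, e2⟩ | ⟨e1, e2⟩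
  · have := hle y hy
    rw [e1, e2] at this
    linarith
  · have := hle x hx
    rw [e1, e2, inner_neg_left] at this
    linarith

/-- sets of pairs given by one-sided conditions are closed -/
theorem isClosed_le_side (A : Set (E 4)) :
    IsClosed {p : Metric.sphere (0 : E 4) 1 × ℝ | ∀ x ∈ A, ⟪(p.1 : E 4), x⟫ ≤ p.2} := by
  have : {p : Metric.sphere (0 : E 4) 1 × ℝ | ∀ x ∈ A, ⟪(p.1 : E 4), x⟫ ≤ p.2} =
      ⋂ x ∈ A, {p : Metric.sphere (0 : E 4) 1 × ℝ | ⟪(p.1 : E 4), x⟫ ≤ p.2} := by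
    ext p
    simp
  rw [this]
  refine isClosed_biInter fun x _ => isClosed_le ?_ continuous_snd
  exact (continuous_subtype_val.comp continuous_fst).inner continuous_const

theorem isClosed_ge_side (A : Set (E 4)) :
    IsClosed {p : Metric.sphere (0 : E 4) 1 × ℝ | ∀ x ∈ A, p.2 ≤ ⟪(p.1 : E 4), x⟫} := by
  have : {p : Metric.sphere (0 : E 4) 1 × ℝ | ∀ x ∈ A, p.2 ≤ ⟪(p.1 : E 4), x⟫} =
      ⋂ x ∈ A, {p : Metric.sphere (0 : E 4) 1 × ℝ | p.2 ≤ ⟪(p.1 : E 4), x⟫} := by
    ext p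
    simp
  rw [this]
  refine isClosed_biInter fun x _ => isClosed_le continuous_snd ?_
  exact (continuous_subtype_val.comp continuous_fst).inner continuous_const

theorem continuous_coord (i : Fin 4) :
    Continuous fun p : Metric.sphere (0 : E 4) 1 × ℝ => (p.1 : E 4) i :=
  (coordL i).continuous.comp (continuous_subtype_val.comp continuous_fst)

/-- Key computation: a hyperplane with slope in a node that supports `setP` and `setQ` from the
same side and meets `setB` contains `setB`. -/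
theorem key (p : Metric.sphere (0 : E 4) 1 × ℝ) (q : ℝ) (hq : q ∈ nodes)
    (hP : ∀ x ∈ setP, ⟪(p.1 : E 4), x⟫ ≤ p.2) (hQ : ∀ x ∈ setQ, ⟪(p.1 : E 4), x⟫ ≤ p.2)
    (mP : ∃ x ∈ setP, ⟪(p.1 : E 4), x⟫ = p.2) (mQ : ∃ x ∈ setQ, ⟪(p.1 : E 4), x⟫ = p.2)
    (mB : ∃ x ∈ setB, ⟪(p.1 : E 4), x⟫ = p.2)
    (h0 : (p.1 : E 4) 0 = -q * (p.1 : E 4) 1) (h1 : 0 ≤ (p.1 : E 4) 1) :
    ∀ x ∈ setB, ⟪(p.1 : E 4), x⟫ = p.2 := by
  obtain ⟨hq0, hq1⟩ := nodes_bounds hq
  set u : E 4 := (p.1 : E 4) with hu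
  have e1 : p.2 = q ^ 2 * u 1 + u 2 := by
    apply le_antisymm
    · obtain ⟨x, hx, hxe⟩ := mP
      rw [← hxe]
      refine hull_le (innerSL ℝ u) _ ?_ x hx
      rintro _ ⟨r, hr, rfl⟩
      simp only [innerSL_apply_apply, inner_pt, h0]
      nlinarith [mul_nonneg (sq_nonneg (q - r)) h1]
    · have := hP _ (subset_hull ⟨q, hq, rfl⟩)
      simp only [inner_pt, h0] at this
      nlinarith
  have e2 : p.2 = 2 * q ^ 2 * u 1 + 2 * u 2 + 2 * u 3 := by
    apply le_antisymm
    · obtain ⟨x, hx, hxe⟩ := mQ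
      rw [← hxe]
      refine hull_le (innerSL ℝ u) _ ?_ x hx
      rintro _ ⟨r, hr, rfl⟩
      simp only [innerSL_apply_apply, inner_pt, h0]
      nlinarith [mul_nonneg (sq_nonneg (q - r)) h1]
    · have := hQ _ (subset_hull ⟨q, ⟨hq0, hq1⟩, rfl⟩)
      simp only [inner_pt, h0] at this
      nlinarith
  have e3 : p.2 = -2 * u 3 := by linarith
  have hin : ∀ x ∈ setB, ⟪u, x⟫ = u 3 * x 3 := by
    intro x hx
    obtain ⟨-, -, c0, c1, c2⟩ := setB_coord hx
    rw [PiLp.inner_apply, Fin.sum_univ_four, c0, c1, c2]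
    simp [mul_comm]
  obtain ⟨y, hy, hye⟩ := mB
  rw [hin y hy] at hye
  obtain ⟨d1, d2, -, -, -⟩ := setB_coord hy
  have e4 : u 3 = 0 := by
    have h : u 3 * (y 3 + 2) = 0 := by linarith
    exact (mul_eq_zero.1 h).resolve_right (by linarith)
  intro x hx
  rw [hin x hx, e3, e4]
  ring

/-- A hyperplane that contains `setP` has vanishing first two normal coordinates. -/
theorem coord_of_containsP (p : Metric.sphere (0 : E 4) 1 × ℝ)
    (h : ∀ x ∈ setP, ⟪(p.1 : E 4), x⟫ = p.2) : (p.1 : E 4) 0 = 0 ∧ (p.1 : E 4) 1 = 0 := by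
  have a0 := h _ (subset_hull ⟨0, Or.inl rfl, rfl⟩)
  have a1 := h _ (subset_hull ⟨node 0, node_mem 0, rfl⟩)
  have a2 := h _ (subset_hull ⟨node 1, node_mem 1, rfl⟩)
  simp only [inner_pt, node] at a0 a1 a2
  norm_num at a0 a1 a2
  constructor <;> linarith

theorem coord_of_containsQ (p : Metric.sphere (0 : E 4) 1 × ℝ)
    (h : ∀ x ∈ setQ, ⟪(p.1 : E 4), x⟫ = p.2) : (p.1 : E 4) 0 = 0 ∧ (p.1 : E 4) 1 = 0 := by
  have a0 := h _ (subset_hull ⟨0, ⟨le_rfl, by norm_num⟩, rfl⟩)
  have a1 := h _ (subset_hull ⟨1 / 400, ⟨by norm_num, le_rfl⟩, rfl⟩)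
  have a2 := h _ (subset_hull ⟨1 / 800, ⟨by norm_num, by norm_num⟩, rfl⟩)
  simp only [inner_pt] at a0 a1 a2
  norm_num at a0 a1 a2
  constructor <;> linarith

end HyperplaneTransversals
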