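import Pool.Agent.Lib.MP_b2e5b9_co.Sep

/-!
# The family of sets in dimension four
-/

set_option autoImplicit false

open scoped RealInnerProductSpace

namespace HyperplaneTransversals

/-- the point with coordinates `x, y, z, w` -/
noncomputable def pt (x y z w : ℝ) : E 4 := !₂[x, y, z, w]

theorem inner_pt (u : E 4) (x y z w : ℝ) :
    ⟪u, pt x y z w⟫ = u 0 * x + u 1 * y + u 2 * z + u 3 * w := by
  simp [pt, PiLp.inner_apply, Fin.sum_univ_four]
  ring

/-- the nodes `0` and `1 / (400 (k + 1))` -/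
def nodes : Set ℝ := insert 0 (Set.range fun k : ℕ => 1 / (400 * ((k : ℝ) + 1)))

/-- the first member -/
noncomputable def setP : Set (E 4) :=
  closure (convexHull ℝ ((fun p : ℝ => pt (-2 * p) (-p ^ 2) 1 0) '' nodes))

/-- the second member -/
noncomputable def setQ : Set (E 4) :=
  closure (convexHull ℝ ((fun p : ℝ => pt (-4 * p) (-2 * p ^ 2) 2 2) '' Set.Icc 0 (1 / 400)))

/-- the third member -/
noncomputable def setB : Set (E 4) := closure (convexHull ℝ {pt 0 0 0 (-1), pt 0 0 0 1})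

/-- the other members -/
noncomputable def setC (τ : ℝ) : Set (E 4) :=
  closure (convexHull ℝ {pt τ (-1) (τ ^ 2) (τ ^ 3), pt τ 1 (τ ^ 2) (τ ^ 3)})

/-- the parameter of the `i`-th member -/
noncomputable def par {n : ℕ} (i : Fin n) : ℝ := 2 + (i : ℝ) / n

/-- the family -/
noncomputable def fam (n : ℕ) (i : Fin n) : Set (E 4) :=
  if i.val = 0 then setP else if i.val = 1 then setQ else if i.val = 2 then setB
  else setC (par i)

theorem par_bounds {n : ℕ} (i : Fin n) : 2 ≤ par i ∧ par i ≤ 3 := by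
  have hn : (0 : ℝ) < n := by exact_mod_cast (Fin.pos i)
  have h1 : (0 : ℝ) ≤ (i : ℝ) / n := by positivity
  have h2 : (i : ℝ) / n ≤ 1 := by
    rw [div_le_one hn]
    exact_mod_cast i.2.le
  unfold par
  constructor <;> linarith

theorem par_injective {n : ℕ} {i j : Fin n} (h : i ≠ j) : par i ≠ par j := by
  have hn : (0 : ℝ) < n := by exact_mod_cast (Fin.pos i)
  intro he
  unfold par at he
  have h1 : (i : ℝ) / n = (j : ℝ) / n := by linarith
  rw [div_left_inj' hn.ne'] at h1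
  exact h (Fin.ext (by exact_mod_cast h1))

theorem nodes_bounds {p : ℝ} (hp : p ∈ nodes) : 0 ≤ p ∧ p ≤ 1 / 400 := by
  rcases hp with rfl | ⟨k, rfl⟩
  · norm_num
  · constructor
    · positivity
    · apply one_div_le_one_div_of_le (by norm_num)
      have : (0 : ℝ) ≤ k := by positivity
      linarith

theorem isCompact_nodes : IsCompact nodes := by
  apply Filter.Tendsto.isCompact_insert_range
  have h := (tendsto_one_div_add_atTop_nhds_zero_nat (𝕜 := ℝ)).const_mul (1 / 400)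
  rw [mul_zero] at h
  refine h.congr fun k => ?_
  have : (0 : ℝ) < (k : ℝ) + 1 := by positivity
  field_simp

/-- linear inequalities pass to closed convex hulls -/
theorem hull_le {S : Set (E 4)} (f : E 4 →L[ℝ] ℝ) (c : ℝ) (h : ∀ x ∈ S, f x ≤ c) :
    ∀ x ∈ closure (convexHull ℝ S), f x ≤ c := by
  intro x hx
  have h1 : convexHull ℝ S ⊆ {x | f x ≤ c} :=
    convexHull_min h (convex_halfSpace_le f.toLinearMap.isLinear c)
  exact closure_minimal h1 (isClosed_le f.continuous continuous_const) hx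

theorem le_hull {S : Set (E 4)} (f : E 4 →L[ℝ] ℝ) (c : ℝ) (h : ∀ x ∈ S, c ≤ f x) :
    ∀ x ∈ closure (convexHull ℝ S), c ≤ f x := by
  intro x hx
  have h1 : convexHull ℝ S ⊆ {x | c ≤ f x} :=
    convexHull_min h (convex_halfSpace_ge f.toLinearMap.isLinear c)
  exact closure_minimal h1 (isClosed_le continuous_const f.continuous) hx

theorem hull_eq {S : Set (E 4)} (f : E 4 →L[ℝ] ℝ) (c : ℝ) (h : ∀ x ∈ S, f x = c) :
    ∀ x ∈ closure (convexHull ℝ S), f x = c := fun x hx =>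
  le_antisymm (hull_le f c (fun y hy => (h y hy).le) x hx)
    (le_hull f c (fun y hy => (h y hy).ge) x hx)

theorem subset_hull {S : Set (E 4)} : S ⊆ closure (convexHull ℝ S) :=
  (subset_convexHull ℝ S).trans subset_closure

theorem isCompact_hull {S : Set (E 4)} (hS : IsCompact S) :
    IsCompact (closure (convexHull ℝ S)) := by
  apply Metric.isCompact_of_isClosed_isBounded isClosed_closure
  exact (isBounded_convexHull.2 hS.isBounded).closure

theorem convex_hull (S : Set (E 4)) : Convex ℝ (closure (convexHull ℝ S)) :=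
  (convex_convexHull ℝ S).closure

/-- the `i`-th coordinate as a linear functional -/
noncomputable def coordL (i : Fin 4) : E 4 →L[ℝ] ℝ := EuclideanSpace.proj i

theorem coordL_apply (i : Fin 4) (x : E 4) : coordL i x = x i := rfl

theorem pt0 (x y z w : ℝ) : pt x y z w 0 = x := rfl
theorem pt1 (x y z w : ℝ) : pt x y z w 1 = y := rfl
theorem pt2 (x y z w : ℝ) : pt x y z w 2 = z := rfl
theorem pt3 (x y z w : ℝ) : pt x y z w 3 = w := rfl

theorem setP_coord {x : E 4} (hx : x ∈ setP) :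
    -(1 / 200) ≤ x 0 ∧ x 0 ≤ 0 ∧ x 2 = 1 ∧ x 3 = 0 := by
  refine ⟨le_hull (coordL 0) _ ?_ x hx, hull_le (coordL 0) _ ?_ x hx,
    hull_eq (coordL 2) _ ?_ x hx, hull_eq (coordL 3) _ ?_ x hx⟩ <;>
  · rintro _ ⟨p, hp, rfl⟩
    have := nodes_bounds hp
    simp only [coordL_apply, pt0, pt2, pt3]
    try linarith

theorem setQ_coord {x : E 4} (hx : x ∈ setQ) :
    -(1 / 100) ≤ x 0 ∧ x 0 ≤ 0 ∧ x 2 = 2 ∧ x 3 = 2 := by
  refine ⟨le_hull (coordL 0) _ ?_ x hx, hull_le (coordL 0) _ ?_ x hx,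
    hull_eq (coordL 2) _ ?_ x hx, hull_eq (coordL 3) _ ?_ x hx⟩ <;>
  · rintro _ ⟨p, hp, rfl⟩
    have := hp.1
    have := hp.2
    simp only [coordL_apply, pt0, pt2, pt3]
    try linarith

theorem setB_coord {x : E 4} (hx : x ∈ setB) :
    -1 ≤ x 3 ∧ x 3 ≤ 1 ∧ x 0 = 0 ∧ x 1 = 0 ∧ x 2 = 0 := by
  refine ⟨le_hull (coordL 3) _ ?_ x hx, hull_le (coordL 3) _ ?_ x hx,
    hull_eq (coordL 0) _ ?_ x hx, hull_eq (coordL 1) _ ?_ x hx, hull_eq (coordL 2) _ ?_ x hx⟩ <;>
  · intro y hy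
    rcases hy with rfl | hy
    · simp only [coordL_apply, pt0, pt1, pt2, pt3]
      try norm_num
    · rw [Set.mem_singleton_iff] at hy
      subst hy
      simp only [coordL_apply, pt0, pt1, pt2, pt3]
      try norm_num

theorem setC_coord {τ : ℝ} {x : E 4} (hx : x ∈ setC τ) :
    x 0 = τ ∧ x 2 = τ ^ 2 ∧ x 3 = τ ^ 3 := by
  refine ⟨hull_eq (coordL 0) _ ?_ x hx, hull_eq (coordL 2) _ ?_ x hx,
    hull_eq (coordL 3) _ ?_ x hx⟩ <;>
  · intro y hy
    rcases hy with rfl | hy
    · simp only [coordL_apply, pt0, pt2, pt3]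
    · rw [Set.mem_singleton_iff] at hy
      subst hy
      simp only [coordL_apply, pt0, pt2, pt3]

theorem continuous_pt {X : Type*} [TopologicalSpace X] {f g h k : X → ℝ} (hf : Continuous f)
    (hg : Continuous g) (hh : Continuous h) (hk : Continuous k) :
    Continuous fun x => pt (f x) (g x) (h x) (k x) := by
  unfold pt
  refine (PiLp.continuous_toLp 2 _).comp (continuous_pi fun i => ?_)
  fin_cases i <;> simpa

theorem fam_good (n : ℕ) (i : Fin n) :
    (fam n i).Nonempty ∧ IsCompact (fam n i) ∧ Convex ℝ (fam n i) := by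
  unfold fam
  split_ifs
  · refine ⟨?_, ?_, convex_hull _⟩
    · exact ⟨_, subset_hull ⟨0, Or.inl rfl, rfl⟩⟩
    · refine isCompact_hull (isCompact_nodes.image ?_)
      exact continuous_pt (by fun_prop) (by fun_prop) (by fun_prop) (by fun_prop)
  · refine ⟨?_, ?_, convex_hull _⟩
    · exact ⟨_, subset_hull ⟨0, by norm_num, rfl⟩⟩
    · refine isCompact_hull (isCompact_Icc.image ?_)
      exact continuous_pt (by fun_prop) (by fun_prop) (by fun_prop) (by fun_prop)
  · refine ⟨⟨_, subset_hull (Or.inl rfl)⟩, ?_, convex_hull _⟩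
    exact isCompact_hull (Set.toFinite _).isCompact
  · refine ⟨⟨_, subset_hull (Or.inl rfl)⟩, ?_, convex_hull _⟩
    exact isCompact_hull (Set.toFinite _).isCompact

/-- A functional in the coordinates `0, 2, 3` that vanishes on a given `2`-flat. -/
theorem exists_functional (L : AffineSubspace ℝ (E 4)) (hL : IsFlat 2 L) :
    ∃ a0 a1 a2 a3 : ℝ, ¬ (a1 = 0 ∧ a2 = 0 ∧ a3 = 0) ∧
      ∀ x ∈ L, a0 + a1 * x 0 + a2 * x 2 + a3 * x 3 = 0 := by
  obtain ⟨⟨x0, hx0⟩, hd⟩ := hL
  let Φ : E 4 →ₗ[ℝ] (Fin 3 → ℝ) := LinearMap.pi ![(coordL 0).toLinearMap, (coordL 2).toLinearMap, (coordL 3).toLinearMap]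
  have h1 : Submodule.map Φ L.direction < ⊤ := by
    rw [lt_top_iff_ne_top]
    intro h
    have h2 : Module.finrank ℝ (Submodule.map Φ L.direction) ≤ Module.finrank ℝ L.direction :=
      Submodule.finrank_map_le _ _
    rw [h, hd, finrank_top, Module.finrank_fin_fun] at h2
    omega
  obtain ⟨f, hf, hf'⟩ := Submodule.exists_le_ker_of_lt_top _ h1
  have hfe : ∀ v : Fin 3 → ℝ, f v = f ![1, 0, 0] * v 0 + f ![0, 1, 0] * v 1 + f ![0, 0, 1] * v 2 := by
    intro v
    have hv : v = v 0 • ![(1 : ℝ), 0, 0] + v 1 • ![(0 : ℝ), 1, 0] + v 2 • ![(0 : ℝ), 0, 1] := by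
      ext i
      fin_cases i <;> simp
    conv_lhs => rw [hv]
    simp only [map_add, map_smul, smul_eq_mul]
    ring
  refine ⟨-(f ![1, 0, 0] * x0 0 + f ![0, 1, 0] * x0 2 + f ![0, 0, 1] * x0 3),
    f ![1, 0, 0], f ![0, 1, 0], f ![0, 0, 1], ?_, ?_⟩
  · rintro ⟨h1, h2, h3⟩
    apply hf
    refine LinearMap.ext fun v => ?_
    rw [hfe, h1, h2, h3]
    simp
  · intro x hx
    have h3 : x -ᵥ x0 ∈ L.direction := AffineSubspace.vsub_mem_direction hx hx0
    have h4 : f (Φ (x -ᵥ x0)) = 0 := hf' (Submodule.mem_map_of_mem h3)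
    rw [hfe] at h4
    have e0 : Φ (x -ᵥ x0) 0 = x 0 - x0 0 := rfl
    have e1 : Φ (x -ᵥ x0) 1 = x 2 - x0 2 := rfl
    have e2 : Φ (x -ᵥ x0) 2 = x 3 - x0 3 := rfl
    rw [e0, e1, e2] at h4
    linarith

end HyperplaneTransversals
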