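import Pool.Agent.Lib.MP_b2e5b9_co.Faces

/-!
# Infinitely many faces: the proof
-/

set_option autoImplicit false

open scoped RealInnerProductSpace

namespace HyperplaneTransversals

/-- a hyperplane with slope in `[0, q]` which lies above the first two members -/
def R1 (q : ℝ) : Set (Metric.sphere (0 : E 4) 1 × ℝ) :=
  ({p | ∀ x ∈ setP, ⟪(p.1 : E 4), x⟫ ≤ p.2} ∩ {p | ∀ x ∈ setQ, ⟪(p.1 : E 4), x⟫ ≤ p.2}) ∩
    ({p | (p.1 : E 4) 0 ≤ 0} ∩ {p | 0 ≤ (p.1 : E 4) 0 + q * (p.1 : E 4) 1})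

/-- the complementary cases -/
def R2 (q : ℝ) : Set (Metric.sphere (0 : E 4) 1 × ℝ) :=
  (({p | ∀ x ∈ setP, ⟪(p.1 : E 4), x⟫ ≤ p.2} ∩ {p | ∀ x ∈ setQ, ⟪(p.1 : E 4), x⟫ ≤ p.2}) ∩
    ({p | 0 ≤ (p.1 : E 4) 0} ∪ {p | (p.1 : E 4) 0 + q * (p.1 : E 4) 1 ≤ 0})) ∪
  ({p | ∀ x ∈ setP, ⟪(p.1 : E 4), x⟫ ≤ p.2} ∩ {p | ∀ x ∈ setQ, p.2 ≤ ⟪(p.1 : E 4), x⟫})

theorem isClosed_R1 (q : ℝ) : IsClosed (R1 q) := by
  refine ((isClosed_le_side _).inter (isClosed_le_side _)).inter (IsClosed.inter ?_ ?_)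
  · exact isClosed_le (continuous_coord 0) continuous_const
  · exact isClosed_le continuous_const
      ((continuous_coord 0).add (continuous_const.mul (continuous_coord 1)))

theorem isClosed_R2 (q : ℝ) : IsClosed (R2 q) := by
  refine IsClosed.union (((isClosed_le_side _).inter (isClosed_le_side _)).inter
    (IsClosed.union ?_ ?_)) ((isClosed_le_side _).inter (isClosed_ge_side _))
  · exact isClosed_le continuous_const (continuous_coord 0)
  · exact isClosed_le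
      ((continuous_coord 0).add (continuous_const.mul (continuous_coord 1))) continuous_const

/-- The convention on `S`: for the weak notion of support the third member is not in `S`, for the
strict notion it is. -/
def GoodS (proper : Prop) {n : ℕ} (S : Set (Fin n)) : Prop :=
  ∀ i : Fin n, (i.val = 0 → i ∈ S) ∧ (i.val = 1 → i ∈ S) ∧ (i.val = 2 → (i ∈ S ↔ proper))

variable {n : ℕ}

theorem fam_zero {i : Fin n} (h : i.val = 0) : fam n i = setP := by simp [fam, h]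
theorem fam_one {i : Fin n} (h : i.val = 1) : fam n i = setQ := by simp [fam, h]
theorem fam_two {i : Fin n} (h : i.val = 2) : fam n i = setB := by simp [fam, h]
theorem fam_three {i : Fin n} (h : 3 ≤ i.val) : fam n i = setC (par i) := by
  have h0 : ¬ i.val = 0 := by omega
  have h1 : ¬ i.val = 1 := by omega
  have h2 : ¬ i.val = 2 := by omega
  simp [fam, h0, h1, h2]

/-- In a stratum, a hyperplane cannot have its slope in a node. -/
theorem no_node (hn : 4 ≤ n) {proper : Prop} {S : Set (Fin n)} (hS : GoodS proper S) {H : Hyp 4}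
    (hH : H ∈ stratum proper (fam n) S) (p : Metric.sphere (0 : E 4) 1 × ℝ)
    (hp : hyperplane p = H.flat) (q : ℝ) (hq : q ∈ nodes)
    (hP : ∀ x ∈ setP, ⟪(p.1 : E 4), x⟫ ≤ p.2) (hQ : ∀ x ∈ setQ, ⟪(p.1 : E 4), x⟫ ≤ p.2)
    (h0 : (p.1 : E 4) 0 = -q * (p.1 : E 4) 1) (h1 : 0 ≤ (p.1 : E 4) 1) : False := by
  obtain ⟨hT, hSup⟩ := hH
  have m0 := hT ⟨0, by omega⟩
  have m1 := hT ⟨1, by omega⟩
  have m2 := hT ⟨2, by omega⟩
  rw [fam_zero rfl, ← hp] at m0
  rw [fam_one rfl, ← hp] at m1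
  rw [fam_two rfl, ← hp] at m2
  have mP : ∃ x ∈ setP, ⟪(p.1 : E 4), x⟫ = p.2 := by
    obtain ⟨x, hx, hx'⟩ := m0
    exact ⟨x, hx', (mem_hyperplane p x).1 hx⟩
  have mQ : ∃ x ∈ setQ, ⟪(p.1 : E 4), x⟫ = p.2 := by
    obtain ⟨x, hx, hx'⟩ := m1
    exact ⟨x, hx', (mem_hyperplane p x).1 hx⟩
  have mB : ∃ x ∈ setB, ⟪(p.1 : E 4), x⟫ = p.2 := by
    obtain ⟨x, hx, hx'⟩ := m2
    exact ⟨x, hx', (mem_hyperplane p x).1 hx⟩
  have hk := key p q hq hP hQ mP mQ mB h0 h1
  have hc : setB ⊆ (hyperplane p : Set (E 4)) := fun x hx => (mem_hyperplane p x).2 (hk x hx)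
  have h2 := hSup ⟨2, by omega⟩
  rw [(hS ⟨2, by omega⟩).2.2 rfl, fam_two rfl, ← hp] at h2
  by_cases hpr : proper
  · exact (h2.2 hpr).2.2 hpr hc
  · exact hpr (h2.1 ⟨m2, ⟨p, rfl, fun x hx => (hk x hx).le⟩, fun h => absurd h hpr⟩)

/-- The two closed sets do not meet inside a stratum. -/
theorem no_both (hn : 4 ≤ n) {proper : Prop} {S : Set (Fin n)} (hS : GoodS proper S) {H : Hyp 4}
    (hH : H ∈ stratum proper (fam n) S) (q : ℝ) (hq : q ∈ nodes) (hqpos : 0 < q)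
    (h1 : ∃ p ∈ R1 q, hyperplane p = H.flat) (h2 : ∃ p ∈ R2 q, hyperplane p = H.flat) : False := by
  obtain ⟨p, ⟨⟨hP, hQ⟩, hs0, hs1⟩, hp⟩ := h1
  obtain ⟨p', hp'R, hp'⟩ := h2
  simp only [Set.mem_ofPred_eq] at hP hQ hs0 hs1
  have hz : (p.1 : E 4) 0 = 0 ∧ (p.1 : E 4) 1 = 0 → False := by
    rintro ⟨z0, z1⟩
    exact no_node hn hS hH p hp 0 (Or.inl rfl) hP hQ (by rw [z0]; ring) z1.ge
  have h : 0 ≤ (p.1 : E 4) 1 := by
    apply nonneg_of_mul_nonneg_right (a := q) _ hqpos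
    linarith
  rcases hyperplane_eq_iff p p' (hp.trans hp'.symm) with ⟨e1, e2⟩ | ⟨e1, e2⟩
  · rcases hp'R with ⟨-, hs | hs⟩ | ⟨-, hQ'⟩
    · simp only [Set.mem_ofPred_eq, e1] at hs
      have z0 : (p.1 : E 4) 0 = 0 := le_antisymm hs0 hs
      exact no_node hn hS hH p hp 0 (Or.inl rfl) hP hQ (by rw [z0]; ring) h
    · simp only [Set.mem_ofPred_eq, e1] at hs
      exact no_node hn hS hH p hp q hq hP hQ (by linarith) h
    · simp only [Set.mem_ofPred_eq, e1, e2] at hQ'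
      exact hz (coord_of_containsQ p fun x hx => le_antisymm (hQ x hx) (hQ' x hx))
  · rcases hp'R with ⟨⟨hP', -⟩, -⟩ | ⟨hP', -⟩
    · simp only [Set.mem_ofPred_eq, e1, e2, inner_neg_left, neg_le_neg_iff] at hP'
      exact hz (coord_of_containsP p fun x hx => le_antisymm (hP x hx) (hP' x hx))
    · simp only [Set.mem_ofPred_eq, e1, e2, inner_neg_left, neg_le_neg_iff] at hP'
      exact hz (coord_of_containsP p fun x hx => le_antisymm (hP x hx) (hP' x hx))

/-- Every hyperplane of the stratum lies in one of the two closed sets. -/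
theorem covered (hn : 4 ≤ n) {proper : Prop} {S : Set (Fin n)} (hS : GoodS proper S) {H : Hyp 4}
    (hH : H ∈ stratum proper (fam n) S) (q : ℝ) :
    (∃ p ∈ R1 q, hyperplane p = H.flat) ∨ (∃ p ∈ R2 q, hyperplane p = H.flat) := by
  obtain ⟨-, hSup⟩ := hH
  have s0 := (hSup ⟨0, by omega⟩).2 ((hS ⟨0, by omega⟩).1 rfl)
  have s1 := (hSup ⟨1, by omega⟩).2 ((hS ⟨1, by omega⟩).2.1 rfl)
  rw [fam_zero rfl] at s0
  rw [fam_one rfl] at s1
  obtain ⟨-, ⟨p, hp, hP⟩, -⟩ := s0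
  obtain ⟨-, ⟨p', hp', hQ⟩, -⟩ := s1
  rcases hyperplane_eq_iff p p' (hp.trans hp'.symm) with ⟨e1, e2⟩ | ⟨e1, e2⟩
  · rw [e1, e2] at hQ
    by_cases c1 : 0 ≤ (p.1 : E 4) 0
    · exact Or.inr ⟨p, Or.inl ⟨⟨hP, hQ⟩, Or.inl c1⟩, hp⟩
    · by_cases c2 : (p.1 : E 4) 0 + q * (p.1 : E 4) 1 ≤ 0
      · exact Or.inr ⟨p, Or.inl ⟨⟨hP, hQ⟩, Or.inr c2⟩, hp⟩
      · exact Or.inl ⟨p, ⟨⟨hP, hQ⟩, (not_le.1 c1).le, (not_le.1 c2).le⟩, hp⟩
  · refine Or.inr ⟨p, Or.inr ⟨hP, ?_⟩, hp⟩
    intro x hx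
    have := hQ x hx
    rw [e1, e2, inner_neg_left, neg_le_neg_iff] at this
    exact this

/-- Two points of a stratum on different sides of a node lie in different faces. -/
theorem separated_faces (hn : 4 ≤ n) {proper : Prop} {S : Set (Fin n)} (hS : GoodS proper S)
    {H H' : Hyp 4} (hH : H ∈ stratum proper (fam n) S) (hH' : H' ∈ stratum proper (fam n) S)
    (q : ℝ) (hq : q ∈ nodes) (hqpos : 0 < q)
    (h1 : ∃ p ∈ R1 q, hyperplane p = H.flat) (h2 : ∃ p ∈ R2 q, hyperplane p = H'.flat) :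
    connectedComponentIn (stratum proper (fam n) S) H ≠
      connectedComponentIn (stratum proper (fam n) S) H' := by
  intro he
  have hpre : IsPreconnected (connectedComponentIn (stratum proper (fam n) S) H) :=
    isPreconnected_connectedComponentIn
  have hsub : connectedComponentIn (stratum proper (fam n) S) H ⊆ stratum proper (fam n) S :=
    connectedComponentIn_subset _ _
  rw [isPreconnected_closed_iff] at hpre
  obtain ⟨K, hK, hK1, hK2⟩ := hpre _ _ (isClosed_image _ (isClosed_R1 q))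
    (isClosed_image _ (isClosed_R2 q)) (fun K hK => covered hn hS (hsub hK) q)
    ⟨H, mem_connectedComponentIn hH, h1⟩ ⟨H', by rw [he]; exact mem_connectedComponentIn hH', h2⟩
  exact no_both hn hS (hsub hK) q hq hqpos hK1 hK2

/-- a convex set with points strictly on both sides of a hyperplane meets it -/
theorem cross_meets {d : ℕ} {A : Set (E d)} (hA : Convex ℝ A)
    {p : Metric.sphere (0 : E d) 1 × ℝ} {x y : E d} (hx : x ∈ A) (hy : y ∈ A)
    (h1 : ⟪(p.1 : E d), x⟫ < p.2) (h2 : p.2 < ⟪(p.1 : E d), y⟫) :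
    ((hyperplane p : Set (E d)) ∩ A).Nonempty := by
  set α := ⟪(p.1 : E d), x⟫ with hα
  set β := ⟪(p.1 : E d), y⟫ with hβ
  have hpos : 0 < β - α := by linarith
  refine ⟨((β - p.2) / (β - α)) • x + ((p.2 - α) / (β - α)) • y, ?_, ?_⟩
  · change _ ∈ hyperplane p
    rw [mem_hyperplane, inner_add_right, inner_smul_right, inner_smul_right, ← hα, ← hβ]
    field_simp
    ring
  · apply hA hx hy
    · exact div_nonneg (by linarith) hpos.le
    · exact div_nonneg (by linarith) hpos.le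
    · rw [← add_div]
      have : β - p.2 + (p.2 - α) = β - α := by ring
      rw [this, div_self hpos.ne']

/-- the strata used -/
def theS (proper : Prop) (n : ℕ) : Set (Fin n) :=
  {i | i.val = 0 ∨ i.val = 1 ∨ (i.val = 2 ∧ proper)}

theorem goodS (proper : Prop) (n : ℕ) : GoodS proper (theS proper n) := by
  intro i
  refine ⟨fun h => Or.inl h, fun h => Or.inr (Or.inl h), fun h => ?_⟩
  constructor
  · rintro (h' | h' | h')
    · omega
    · omega
    · exact h'.2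
  · intro hp
    exact Or.inr (Or.inr ⟨h, hp⟩)

/-- The points of the stratum between consecutive nodes. -/
theorem exists_point (n : ℕ) (proper : Prop) (k : ℕ) :
    ∃ H ∈ stratum proper (fam n) (theS proper n), ∃ p : Metric.sphere (0 : E 4) 1 × ℝ,
      hyperplane p = H.flat ∧ (∀ x ∈ setP, ⟪(p.1 : E 4), x⟫ ≤ p.2) ∧
      (∀ x ∈ setQ, ⟪(p.1 : E 4), x⟫ ≤ p.2) ∧ 0 < (p.1 : E 4) 1 ∧
      (p.1 : E 4) 0 = -(mid k) * (p.1 : E 4) 1 := by
  classical
  have hg := gap_pos k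
  have hg' := gap_le k
  obtain ⟨hm, hm'⟩ := mid_bounds k
  set a := mid k with ha
  set δ := gap k with hδ
  have hga : δ ≤ a := gap_le_mid k
  have hga' : δ < a := by
    have := node_pos (k + 1)
    rw [ha, hδ]
    unfold gap mid
    linarith
  have hnode : a - node k = -δ := by
    rw [ha, hδ]
    unfold gap mid
    ring
  -- the offset and the last coordinate
  obtain ⟨t, w, htw, ht1, ht2, hw1, hw2, hcase⟩ : ∃ t w : ℝ, t + 2 * w = -2 * δ ^ 2 ∧
      -δ ^ 2 ≤ t ∧ t ≤ 0 ∧ -δ ^ 2 ≤ w ∧ w < 0 ∧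
      ((proper ∧ t = w) ∨ (¬ proper ∧ t = 0)) := by
    have hsq : 0 < δ ^ 2 := by positivity
    by_cases hp : proper
    · exact ⟨-2 * δ ^ 2 / 3, -2 * δ ^ 2 / 3, by ring, by linarith, by linarith, by linarith,
        by linarith, Or.inl ⟨hp, rfl⟩⟩
    · exact ⟨0, -δ ^ 2, by ring, by linarith, le_rfl, le_rfl, by linarith, Or.inr ⟨hp, rfl⟩⟩
  have hδsq : δ ^ 2 ≤ 1 / 160000 := by nlinarith
  have hδsq0 : 0 < δ ^ 2 := by positivity
  have hasq : a ^ 2 ≤ 1 / 160000 := by nlinarith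
  have hasq0 : 0 < a ^ 2 := by positivity
  have hlt : δ ^ 2 < a ^ 2 := by nlinarith
  set z := t - (a ^ 2 - δ ^ 2) with hz
  set v : E 4 := pt (-a) 1 z w with hv
  have hv0 : v ≠ 0 := by
    intro h
    have : v 1 = 0 := by rw [h]; rfl
    rw [hv, pt1] at this
    norm_num at this
  obtain ⟨p, hmem, hp1, hp2⟩ := exists_hyperplane v hv0 t
  have hc : 0 < ‖v‖⁻¹ := inv_pos.2 (norm_pos_iff.2 hv0)
  have hin : ∀ x, ⟪(p.1 : E 4), x⟫ = ‖v‖⁻¹ * ⟪v, x⟫ := by
    intro x
    rw [hp1, real_inner_smul_left]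
  have hle : ∀ x, ⟪(p.1 : E 4), x⟫ ≤ p.2 ↔ ⟪v, x⟫ ≤ t := by
    intro x
    rw [hin, hp2, mul_le_mul_iff_right₀ hc]
  have hlt' : ∀ x, ⟪(p.1 : E 4), x⟫ < p.2 ↔ ⟪v, x⟫ < t := by
    intro x
    rw [hin, hp2, mul_lt_mul_iff_right₀ hc]
  have hgt' : ∀ x, p.2 < ⟪(p.1 : E 4), x⟫ ↔ t < ⟪v, x⟫ := by
    intro x
    rw [hin, hp2, mul_lt_mul_iff_right₀ hc]
  have hvin : ∀ x y z' w', ⟪v, pt x y z' w'⟫ = -a * x + y + z * z' + w * w' := by
    intro x y z' w'
    rw [inner_pt]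
    rw [hv, pt0, pt1, pt2, pt3]
    ring
  -- the first member
  have P1 : ∀ x ∈ setP, ⟪v, x⟫ ≤ t := by
    refine hull_le (innerSL ℝ v) _ ?_
    rintro _ ⟨r, hr, rfl⟩
    have := gap_sq_le (k := k) hr
    rw [innerSL_apply_apply, hvin]
    nlinarith
  have P2 : ⟪v, pt (-2 * node k) (-(node k) ^ 2) 1 0⟫ = t := by
    have h : node k = a + δ := by linarith
    rw [hvin, h]
    nlinarith
  have P3 : ⟪v, pt (-2 * 0) (-0 ^ 2) 1 0⟫ < t := by
    rw [hvin]
    nlinarith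
  -- the second member
  have Q1 : ∀ x ∈ setQ, ⟪v, x⟫ ≤ t := by
    refine hull_le (innerSL ℝ v) _ ?_
    rintro _ ⟨r, hr, rfl⟩
    rw [innerSL_apply_apply, hvin]
    nlinarith [sq_nonneg (a - r)]
  have Q2 : ⟪v, pt (-4 * a) (-2 * a ^ 2) 2 2⟫ = t := by
    rw [hvin]
    nlinarith
  have Q3 : ⟪v, pt (-4 * 0) (-2 * 0 ^ 2) 2 2⟫ < t := by
    rw [hvin]
    nlinarith
  -- the other members
  have C : ∀ τ : ℝ, 2 ≤ τ → τ ≤ 3 → ⟪v, pt τ (-1) (τ ^ 2) (τ ^ 3)⟫ < t ∧
      t < ⟪v, pt τ 1 (τ ^ 2) (τ ^ 3)⟫ := by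
    intro τ h2 h3
    have e1 : a * τ ≤ 1 / 400 * 3 := mul_le_mul hm' h3 (by linarith) (by norm_num)
    have e1' : 0 ≤ a * τ := by positivity
    have hτ2 : τ ^ 2 ≤ 9 := by nlinarith
    have hτ3 : τ ^ 3 ≤ 27 := by nlinarith
    have hτ2' : 0 ≤ τ ^ 2 := by positivity
    have hτ3' : 0 ≤ τ ^ 3 := by positivity
    have hzl : -z ≤ 1 / 80000 := by linarith
    have hz0 : 0 ≤ -z := by linarith
    have e2 : (-z) * τ ^ 2 ≤ 1 / 80000 * 9 := mul_le_mul hzl hτ2 hτ2' (by norm_num)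
    have e2' : 0 ≤ (-z) * τ ^ 2 := mul_nonneg hz0 hτ2'
    have hwl : -w ≤ 1 / 160000 := by linarith
    have e3 : (-w) * τ ^ 3 ≤ 1 / 160000 * 27 := mul_le_mul hwl hτ3 hτ3' (by norm_num)
    have e3' : 0 ≤ (-w) * τ ^ 3 := mul_nonneg (by linarith) hτ3'
    rw [hvin, hvin]
    constructor
    · linarith
    · linarith
  have B1 : ⟪v, pt 0 0 0 (-1)⟫ = -w := by
    rw [hvin]
    ring
  have B2 : ⟪v, pt 0 0 0 1⟫ = w := by
    rw [hvin]
    ring
  have memP : pt (-2 * node k) (-(node k) ^ 2) 1 0 ∈ setP := subset_hull ⟨node k, node_mem k, rfl⟩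
  have memQ : pt (-4 * a) (-2 * a ^ 2) 2 2 ∈ setQ := subset_hull ⟨a, ⟨hm.le, hm'⟩, rfl⟩
  have memB1 : pt 0 0 0 (-1) ∈ setB := subset_hull (Or.inl rfl)
  have memB2 : pt 0 0 0 1 ∈ setB := subset_hull (Or.inr rfl)
  have meetP : ((hyperplane p : Set (E 4)) ∩ setP).Nonempty := ⟨_, (hmem _).2 P2, memP⟩
  have meetQ : ((hyperplane p : Set (E 4)) ∩ setQ).Nonempty := ⟨_, (hmem _).2 Q2, memQ⟩
  have meetC : ∀ τ : ℝ, 2 ≤ τ → τ ≤ 3 → ((hyperplane p : Set (E 4)) ∩ setC τ).Nonempty :=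
    fun τ h2 h3 => cross_meets (convex_hull _) (subset_hull (Or.inl rfl)) (subset_hull (Or.inr rfl))
      ((hlt' _).2 (C τ h2 h3).1) ((hgt' _).2 (C τ h2 h3).2)
  have meetB : ((hyperplane p : Set (E 4)) ∩ setB).Nonempty := by
    rcases hcase with ⟨-, hc⟩ | ⟨-, hc⟩
    · exact ⟨_, (hmem _).2 (B2.trans hc.symm), memB2⟩
    · refine cross_meets (convex_hull _) memB2 memB1 ((hlt' _).2 ?_) ((hgt' _).2 ?_)
      · rw [B2]
        linarith
      · rw [B1]
        linarith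
  have suppP : Supports proper (hyperplane p) setP := by
    refine ⟨meetP, ⟨p, rfl, fun x hx => (hle x).2 (P1 x hx)⟩, fun _ hsub => ?_⟩
    have := (hmem _).1 (hsub (subset_hull ⟨0, Or.inl rfl, rfl⟩ :
      pt (-2 * 0) (-0 ^ 2) 1 0 ∈ setP))
    linarith
  have suppQ : Supports proper (hyperplane p) setQ := by
    refine ⟨meetQ, ⟨p, rfl, fun x hx => (hle x).2 (Q1 x hx)⟩, fun _ hsub => ?_⟩
    have := (hmem _).1 (hsub (subset_hull ⟨0, ⟨le_rfl, by norm_num⟩, rfl⟩ :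
      pt (-4 * 0) (-2 * 0 ^ 2) 2 2 ∈ setQ))
    linarith
  have suppC : ∀ τ : ℝ, 2 ≤ τ → τ ≤ 3 → ¬ Supports proper (hyperplane p) (setC τ) :=
    fun τ h2 h3 => supports_not_of_cross (subset_hull (Or.inl rfl)) (subset_hull (Or.inr rfl))
      ((hlt' _).2 (C τ h2 h3).1) ((hgt' _).2 (C τ h2 h3).2)
  have suppB : Supports proper (hyperplane p) setB ↔ proper := by
    rcases hcase with ⟨hpr, hc⟩ | ⟨hpr, hc⟩
    · refine ⟨fun _ => hpr, fun _ => ⟨meetB, ⟨(-p.1, -p.2), ?_, ?_⟩, fun _ hsub => ?_⟩⟩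
      · ext x
        rw [mem_hyperplane, mem_hyperplane]
        change ⟪-(p.1 : E 4), x⟫ = -p.2 ↔ _
        rw [inner_neg_left, neg_inj]
      · have : ∀ x ∈ setB, -t ≥ ⟪-v, x⟫ := by
          refine hull_le (innerSL ℝ (-v)) _ ?_
          rintro x (rfl | hx)
          · rw [innerSL_apply_apply, inner_neg_left, B1]
            linarith
          · rw [Set.mem_singleton_iff] at hx
            rw [hx, innerSL_apply_apply, inner_neg_left, B2]
            linarith
        intro x hx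
        have h := this x hx
        rw [inner_neg_left] at h
        change ⟪-(p.1 : E 4), x⟫ ≤ -p.2
        rw [inner_neg_left, hin, hp2]
        nlinarith
      · have := (hmem _).1 (hsub memB1)
        rw [B1] at this
        linarith
    · refine ⟨fun h => ?_, fun h => absurd h hpr⟩
      exfalso
      refine supports_not_of_cross memB2 memB1 ((hlt' _).2 ?_) ((hgt' _).2 ?_) h
      · rw [B2]
        linarith
      · rw [B1]
        linarith
  refine ⟨Hyp.of p, ⟨?_, ?_⟩, p, rfl, fun x hx => (hle x).2 (P1 x hx),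
    fun x hx => (hle x).2 (Q1 x hx), ?_, ?_⟩
  · intro i
    change ((hyperplane p : Set (E 4)) ∩ fam n i).Nonempty
    by_cases h0 : i.val = 0
    · rw [fam_zero h0]; exact meetP
    by_cases h1 : i.val = 1
    · rw [fam_one h1]; exact meetQ
    by_cases h2 : i.val = 2
    · rw [fam_two h2]; exact meetB
    rw [fam_three (by omega)]
    exact meetC _ (par_bounds i).1 (par_bounds i).2
  · intro i
    change Supports proper (hyperplane p) (fam n i) ↔ i ∈ theS proper n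
    by_cases h0 : i.val = 0
    · rw [fam_zero h0]
      exact ⟨fun _ => Or.inl h0, fun _ => suppP⟩
    by_cases h1 : i.val = 1
    · rw [fam_one h1]
      exact ⟨fun _ => Or.inr (Or.inl h1), fun _ => suppQ⟩
    by_cases h2 : i.val = 2
    · rw [fam_two h2, suppB]
      exact ⟨fun h => Or.inr (Or.inr ⟨h2, h⟩), fun h => ((goodS proper n i).2.2 h2).1 h⟩
    rw [fam_three (by omega)]
    constructor
    · intro h
      exact absurd h (suppC _ (par_bounds i).1 (par_bounds i).2)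
    · rintro (h | h | h)
      · exact absurd h h0
      · exact absurd h h1
      · exact absurd h.1 h2
  · rw [hp1]
    change 0 < ‖v‖⁻¹ * v 1
    rw [hv, pt1]
    rw [mul_one]
    exact hc
  · rw [hp1]
    change ‖v‖⁻¹ * v 0 = -a * (‖v‖⁻¹ * v 1)
    rw [hv, pt1, pt0]
    ring

/-- **Infinitely many faces.** -/
theorem faces_infinite (hn : 4 ≤ n) (proper : Prop) : (faces proper (fam n)).Infinite := by
  choose H hH p hp hP hQ hpos hslope using exists_point n proper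
  have key : ∀ k l : ℕ, k < l → connectedComponentIn (stratum proper (fam n) (theS proper n)) (H l) ≠
      connectedComponentIn (stratum proper (fam n) (theS proper n)) (H k) := by
    intro k l hkl
    have hl : mid l ≤ node (k + 1) := by
      have h1 := node_anti (show k + 1 ≤ l by omega)
      have h2 := node_lt l
      unfold mid
      linarith
    have hk : node (k + 1) ≤ mid k := by
      have h2 := node_lt k
      unfold mid
      linarith
    refine separated_faces hn (goodS proper n) (hH l) (hH k) (node (k + 1)) (node_mem _)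
      (node_pos _) ⟨p l, ⟨⟨hP l, hQ l⟩, ?_, ?_⟩, hp l⟩
      ⟨p k, Or.inl ⟨⟨hP k, hQ k⟩, Or.inr ?_⟩, hp k⟩
    · simp only [Set.mem_ofPred_eq]
      rw [hslope l]
      have := (mid_bounds l).1
      have := hpos l
      nlinarith
    · simp only [Set.mem_ofPred_eq]
      rw [hslope l]
      have := hpos l
      nlinarith
    · simp only [Set.mem_ofPred_eq]
      rw [hslope k]
      have := hpos k
      nlinarith
  refine Set.infinite_of_injective_forall_mem
    (f := fun k : ℕ => connectedComponentIn (stratum proper (fam n) (theS proper n)) (H k)) ?_ ?_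
  · intro k l hkl
    rcases lt_trichotomy k l with h | h | h
    · exact absurd hkl.symm (key k l h)
    · exact h
    · exact absurd hkl (key l k h)
  · intro k
    exact ⟨theS proper n, H k, hH k, rfl⟩

end HyperplaneTransversals
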