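import Pool.Agent.Lib.MP_b2e5b9_co.Basic

/-!
# A criterion for affine functionals vanishing on four of the sets
-/

set_option autoImplicit false

namespace HyperplaneTransversals

/-- Three distinct roots of a cubic. -/
theorem cubic_three {a0 a1 a2 a3 s t r : ℝ} (hst : s ≠ t) (hsr : s ≠ r) (htr : t ≠ r)
    (h1 : a0 + a1 * s + a2 * s ^ 2 + a3 * s ^ 3 = 0)
    (h2 : a0 + a1 * t + a2 * t ^ 2 + a3 * t ^ 3 = 0)
    (h3 : a0 + a1 * r + a2 * r ^ 2 + a3 * r ^ 3 = 0) :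
    a2 = -a3 * (s + t + r) ∧ a1 = a3 * (s * t + s * r + t * r) ∧ a0 = -a3 * (s * t * r) := by
  have e1 : a1 + a2 * (s + t) + a3 * (s ^ 2 + s * t + t ^ 2) = 0 := by
    have : (s - t) * (a1 + a2 * (s + t) + a3 * (s ^ 2 + s * t + t ^ 2)) = 0 := by linarith
    exact (mul_eq_zero.1 this).resolve_left (sub_ne_zero.2 hst)
  have e2 : a1 + a2 * (s + r) + a3 * (s ^ 2 + s * r + r ^ 2) = 0 := by
    have : (s - r) * (a1 + a2 * (s + r) + a3 * (s ^ 2 + s * r + r ^ 2)) = 0 := by linarith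
    exact (mul_eq_zero.1 this).resolve_left (sub_ne_zero.2 hsr)
  have e3 : a2 + a3 * (s + t + r) = 0 := by
    have : (t - r) * (a2 + a3 * (s + t + r)) = 0 := by linarith
    exact (mul_eq_zero.1 this).resolve_left (sub_ne_zero.2 htr)
  have f2 : a2 = -a3 * (s + t + r) := by linarith
  have f1 : a1 = a3 * (s * t + s * r + t * r) := by
    rw [f2] at e1
    linarith
  refine ⟨f2, f1, ?_⟩
  rw [f2, f1] at h1
  linarith

/-- Two distinct roots of a cubic. -/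
theorem cubic_two {a0 a1 a2 a3 s t : ℝ} (hst : s ≠ t)
    (h1 : a0 + a1 * s + a2 * s ^ 2 + a3 * s ^ 3 = 0)
    (h2 : a0 + a1 * t + a2 * t ^ 2 + a3 * t ^ 3 = 0) :
    ∃ e : ℝ, a2 = e - (s + t) * a3 ∧ a1 = s * t * a3 - (s + t) * e ∧ a0 = s * t * e := by
  refine ⟨a2 + (s + t) * a3, by ring, ?_, ?_⟩
  · have : (s - t) * (a1 + a2 * (s + t) + a3 * (s ^ 2 + s * t + t ^ 2)) = 0 := by linarith
    have e1 := (mul_eq_zero.1 this).resolve_left (sub_ne_zero.2 hst)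
    linarith
  · have : (s - t) * (a1 + a2 * (s + t) + a3 * (s ^ 2 + s * t + t ^ 2)) = 0 := by linarith
    have e1 := (mul_eq_zero.1 this).resolve_left (sub_ne_zero.2 hst)
    have e2 : a1 = -(a2 * (s + t) + a3 * (s ^ 2 + s * t + t ^ 2)) := by linarith
    rw [e2] at h1
    linarith

theorem case4 {a0 a1 a2 a3 s t r v : ℝ} (hst : s ≠ t) (hsr : s ≠ r) (htr : t ≠ r)
    (hsv : s ≠ v) (htv : t ≠ v) (hrv : r ≠ v)
    (h1 : a0 + a1 * s + a2 * s ^ 2 + a3 * s ^ 3 = 0)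
    (h2 : a0 + a1 * t + a2 * t ^ 2 + a3 * t ^ 3 = 0)
    (h3 : a0 + a1 * r + a2 * r ^ 2 + a3 * r ^ 3 = 0)
    (h4 : a0 + a1 * v + a2 * v ^ 2 + a3 * v ^ 3 = 0) : a1 = 0 ∧ a2 = 0 ∧ a3 = 0 := by
  obtain ⟨e2, e1, e0⟩ := cubic_three hst hsr htr h1 h2 h3
  obtain ⟨f2, -, -⟩ := cubic_three hst hsv htv h1 h2 h4
  have h5 : a3 * (r - v) = 0 := by linarith
  have h6 : a3 = 0 := (mul_eq_zero.1 h5).resolve_right (sub_ne_zero.2 hrv)
  rw [h6] at e1 e2
  exact ⟨by linarith, by linarith, h6⟩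

/-- three `C`'s and the first set -/
theorem case3a {a0 a1 a2 a3 s t r x : ℝ} (hst : s ≠ t) (hsr : s ≠ r) (htr : t ≠ r)
    (hs : 2 ≤ s) (ht : 2 ≤ t) (hr : 2 ≤ r) (hx : x ≤ 0)
    (h1 : a0 + a1 * s + a2 * s ^ 2 + a3 * s ^ 3 = 0)
    (h2 : a0 + a1 * t + a2 * t ^ 2 + a3 * t ^ 3 = 0)
    (h3 : a0 + a1 * r + a2 * r ^ 2 + a3 * r ^ 3 = 0)
    (h4 : a0 + a1 * x + a2 = 0) : a1 = 0 ∧ a2 = 0 ∧ a3 = 0 := by
  obtain ⟨e2, e1, e0⟩ := cubic_three hst hsr htr h1 h2 h3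
  have hst' : 0 < s * t := by positivity
  have hsr' : 0 < s * r := by positivity
  have htr' : 0 < t * r := by positivity
  have hstr : 0 < s * t * r := by positivity
  have h5 : a3 * (s * t * r + (s + t + r) + (s * t + s * r + t * r) * (-x)) = 0 := by
    rw [e0, e1, e2] at h4
    linarith
  have h6 : 0 < s * t * r + (s + t + r) + (s * t + s * r + t * r) * (-x) := by
    have : 0 ≤ (s * t + s * r + t * r) * (-x) := mul_nonneg (by linarith) (by linarith)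
    linarith
  have h7 : a3 = 0 := (mul_eq_zero.1 h5).resolve_right h6.ne'
  rw [h7] at e1 e2
  exact ⟨by linarith, by linarith, h7⟩

/-- three `C`'s and the second set -/
theorem case3b {a0 a1 a2 a3 s t r x : ℝ} (hst : s ≠ t) (hsr : s ≠ r) (htr : t ≠ r)
    (hs : 2 ≤ s) (ht : 2 ≤ t) (hr : 2 ≤ r) (hx : x ≤ 0)
    (h1 : a0 + a1 * s + a2 * s ^ 2 + a3 * s ^ 3 = 0)
    (h2 : a0 + a1 * t + a2 * t ^ 2 + a3 * t ^ 3 = 0)
    (h3 : a0 + a1 * r + a2 * r ^ 2 + a3 * r ^ 3 = 0)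
    (h4 : a0 + a1 * x + 2 * a2 + 2 * a3 = 0) : a1 = 0 ∧ a2 = 0 ∧ a3 = 0 := by
  obtain ⟨e2, e1, e0⟩ := cubic_three hst hsr htr h1 h2 h3
  have hst' : 0 < s * t := by positivity
  have hsr' : 0 < s * r := by positivity
  have htr' : 0 < t * r := by positivity
  have hstr : 0 < s * t * r := by positivity
  have h5 : a3 * (s * t * r + (2 * (s + t + r) - 2) + (s * t + s * r + t * r) * (-x)) = 0 := by
    rw [e0, e1, e2] at h4
    linarith
  have h6 : 0 < s * t * r + (2 * (s + t + r) - 2) + (s * t + s * r + t * r) * (-x) := by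
    have : 0 ≤ (s * t + s * r + t * r) * (-x) := mul_nonneg (by linarith) (by linarith)
    linarith
  have h7 : a3 = 0 := (mul_eq_zero.1 h5).resolve_right h6.ne'
  rw [h7] at e1 e2
  exact ⟨by linarith, by linarith, h7⟩

/-- three `C`'s and the third set -/
theorem case3c {a0 a1 a2 a3 s t r b : ℝ} (hst : s ≠ t) (hsr : s ≠ r) (htr : t ≠ r)
    (hs : 2 ≤ s) (ht : 2 ≤ t) (hr : 2 ≤ r) (hb : b ≤ 1)
    (h1 : a0 + a1 * s + a2 * s ^ 2 + a3 * s ^ 3 = 0)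
    (h2 : a0 + a1 * t + a2 * t ^ 2 + a3 * t ^ 3 = 0)
    (h3 : a0 + a1 * r + a2 * r ^ 2 + a3 * r ^ 3 = 0)
    (h4 : a0 + a3 * b = 0) : a1 = 0 ∧ a2 = 0 ∧ a3 = 0 := by
  obtain ⟨e2, e1, e0⟩ := cubic_three hst hsr htr h1 h2 h3
  have hst' : 4 ≤ s * t := by nlinarith
  have hstr : 8 ≤ s * t * r := by nlinarith
  have h5 : a3 * (s * t * r - b) = 0 := by
    rw [e0] at h4
    linarith
  have h6 : 0 < s * t * r - b := by linarith
  have h7 : a3 = 0 := (mul_eq_zero.1 h5).resolve_right h6.ne'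
  rw [h7] at e1 e2
  exact ⟨by linarith, by linarith, h7⟩

/-- solving a homogeneous `2 × 2` system -/
theorem solve_two {p q r s e a : ℝ} (h1 : p * e + q * a = 0) (h2 : r * e + s * a = 0)
    (hd : p * s - q * r ≠ 0) : e = 0 ∧ a = 0 := by
  constructor
  · have : (p * s - q * r) * e = 0 := by linear_combination s * h1 - q * h2
    exact (mul_eq_zero.1 this).resolve_left hd
  · have : (p * s - q * r) * a = 0 := by linear_combination p * h2 - r * h1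
    exact (mul_eq_zero.1 this).resolve_left hd

/-- the determinant in `case2ab` -/
theorem det_ab {m k x y : ℝ} (hm4 : 4 ≤ m) (hm6 : m ≤ 6) (hk4 : 4 ≤ k) (hk9 : k ≤ 9)
    (hmain : 2 + 2 * k - m * k ≤ -6)
    (hx : x ≤ 0) (hx' : -(1 / 200) ≤ x) (hy : y ≤ 0) (hy' : -(1 / 100) ≤ y) :
    (1 + k - m * x) * (2 - 2 * m + k * y) - (-m + k * x) * (2 + k - m * y) ≠ 0 := by
  have key : (1 + k - m * x) * (2 - 2 * m + k * y) - (-m + k * x) * (2 + k - m * y)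
      = (2 + 2 * k - m * k) + (m * (-x)) * (2 - 2 * m + k * y) + (1 + k) * (k * y)
        + m * (m * (-y)) + (k * (-x)) * (2 + k + m * (-y)) := by ring
  have v1 : 0 ≤ m * (-x) := mul_nonneg (by linarith) (by linarith)
  have v2 : m * (-y) ≤ 6 * (1 / 100) := mul_le_mul hm6 (by linarith) (by linarith) (by norm_num)
  have v3 : 0 ≤ m * (-y) := mul_nonneg (by linarith) (by linarith)
  have v4 : k * (-x) ≤ 9 * (1 / 200) := mul_le_mul hk9 (by linarith) (by linarith) (by norm_num)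
  have v5 : 0 ≤ k * (-x) := mul_nonneg (by linarith) (by linarith)
  have v6 : k * y ≤ 0 := mul_nonpos_of_nonneg_of_nonpos (by linarith) hy
  have t1 : (m * (-x)) * (2 - 2 * m + k * y) ≤ 0 :=
    mul_nonpos_of_nonneg_of_nonpos v1 (by linarith)
  have t2 : (1 + k) * (k * y) ≤ 0 := mul_nonpos_of_nonneg_of_nonpos (by linarith) v6
  have t3 : m * (m * (-y)) ≤ 6 * (6 * (1 / 100)) := mul_le_mul hm6 v2 v3 (by norm_num)
  have t4 : (k * (-x)) * (2 + k + m * (-y)) ≤ 9 * (1 / 200) * 12 :=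
    mul_le_mul v4 (by linarith) (by linarith) (by norm_num)
  rw [key]
  have : (2 + 2 * k - m * k) + (m * (-x)) * (2 - 2 * m + k * y) + (1 + k) * (k * y)
        + m * (m * (-y)) + (k * (-x)) * (2 + k + m * (-y)) < 0 := by linarith
  exact this.ne

/-- two `C`'s and the first two sets -/
theorem case2ab {a0 a1 a2 a3 s t x y : ℝ} (hst : s ≠ t)
    (hs : 2 ≤ s) (ht : 2 ≤ t) (hs3 : s ≤ 3) (ht3 : t ≤ 3) (hx : x ≤ 0) (hx' : -(1 / 200) ≤ x)
    (hy : y ≤ 0) (hy' : -(1 / 100) ≤ y)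
    (h1 : a0 + a1 * s + a2 * s ^ 2 + a3 * s ^ 3 = 0)
    (h2 : a0 + a1 * t + a2 * t ^ 2 + a3 * t ^ 3 = 0)
    (h3 : a0 + a1 * x + a2 = 0)
    (h4 : a0 + a1 * y + 2 * a2 + 2 * a3 = 0) : a1 = 0 ∧ a2 = 0 ∧ a3 = 0 := by
  obtain ⟨e, e2, e1, e0⟩ := cubic_two hst h1 h2
  set m := s + t with hm
  set k := s * t with hk
  have hm4 : 4 ≤ m := by linarith
  have hm6 : m ≤ 6 := by linarith
  have hk4 : 4 ≤ k := by nlinarith
  have hk9 : k ≤ 9 := by nlinarith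
  have g1 : (1 + k - m * x) * e + (-m + k * x) * a3 = 0 := by
    rw [e0, e1, e2] at h3
    linarith
  have g2 : (2 + k - m * y) * e + (2 - 2 * m + k * y) * a3 = 0 := by
    rw [e0, e1, e2] at h4
    linarith
  have hd := det_ab hm4 hm6 hk4 hk9 (by nlinarith) hx hx' hy hy'
  obtain ⟨f1, f2⟩ := solve_two g1 g2 hd
  rw [f1, f2] at e1 e2
  exact ⟨by linarith, by linarith, f2⟩

/-- two `C`'s, the first and the third set -/
theorem case2ac {a0 a1 a2 a3 s t x b : ℝ} (hst : s ≠ t)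
    (hs : 2 ≤ s) (ht : 2 ≤ t) (hs3 : s ≤ 3) (ht3 : t ≤ 3) (hx : x ≤ 0) (hx' : -(1 / 200) ≤ x)
    (hb : b ≤ 1) (hb' : -1 ≤ b)
    (h1 : a0 + a1 * s + a2 * s ^ 2 + a3 * s ^ 3 = 0)
    (h2 : a0 + a1 * t + a2 * t ^ 2 + a3 * t ^ 3 = 0)
    (h3 : a0 + a1 * x + a2 = 0)
    (h4 : a0 + a3 * b = 0) : a1 = 0 ∧ a2 = 0 ∧ a3 = 0 := by
  obtain ⟨e, e2, e1, e0⟩ := cubic_two hst h1 h2
  set m := s + t with hm
  set k := s * t with hk
  have hm4 : 4 ≤ m := by linarith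
  have hm6 : m ≤ 6 := by linarith
  have hk4 : 4 ≤ k := by nlinarith
  have hk9 : k ≤ 9 := by nlinarith
  have g1 : (1 + k - m * x) * e + (-m + k * x) * a3 = 0 := by
    rw [e0, e1, e2] at h3
    linarith
  have g2 : k * e + b * a3 = 0 := by
    rw [e0] at h4
    linarith
  have hd : (1 + k - m * x) * b - (-m + k * x) * k ≠ 0 := by
    have u1 : 0 ≤ -(m * x) := by nlinarith
    have u2 : -(m * x) ≤ 6 / 200 := by nlinarith
    have u3 : 0 ≤ -(k * x) := by nlinarith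
    have t1 : -(10 + 6 / 200) ≤ (1 + k - m * x) * b := by nlinarith
    have t2 : 16 ≤ m * k := by nlinarith
    have t3 : 0 ≤ (-(k * x)) * k := mul_nonneg u3 (by linarith)
    have : 0 < (1 + k - m * x) * b - (-m + k * x) * k := by nlinarith
    exact this.ne'
  obtain ⟨f1, f2⟩ := solve_two g1 g2 hd
  rw [f1, f2] at e1 e2
  exact ⟨by linarith, by linarith, f2⟩

/-- two `C`'s, the second and the third set -/
theorem case2bc {a0 a1 a2 a3 s t y b : ℝ} (hst : s ≠ t)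
    (hs : 2 ≤ s) (ht : 2 ≤ t) (hs3 : s ≤ 3) (ht3 : t ≤ 3)
    (hy : y ≤ 0) (hy' : -(1 / 100) ≤ y) (hb' : -1 ≤ b)
    (h1 : a0 + a1 * s + a2 * s ^ 2 + a3 * s ^ 3 = 0)
    (h2 : a0 + a1 * t + a2 * t ^ 2 + a3 * t ^ 3 = 0)
    (h3 : a0 + a1 * y + 2 * a2 + 2 * a3 = 0)
    (h4 : a0 + a3 * b = 0) : a1 = 0 ∧ a2 = 0 ∧ a3 = 0 := by
  obtain ⟨e, e2, e1, e0⟩ := cubic_two hst h1 h2
  set m := s + t with hm
  set k := s * t with hk
  have hm4 : 4 ≤ m := by linarith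
  have hm6 : m ≤ 6 := by linarith
  have hk4 : 4 ≤ k := by nlinarith
  have hk9 : k ≤ 9 := by nlinarith
  have g1 : (2 + k - m * y) * e + (2 - 2 * m + k * y) * a3 = 0 := by
    rw [e0, e1, e2] at h3
    linarith
  have g2 : k * e + b * a3 = 0 := by
    rw [e0] at h4
    linarith
  have hd : (2 + k - m * y) * b - (2 - 2 * m + k * y) * k ≠ 0 := by
    have u1 : 0 ≤ -(m * y) := by nlinarith
    have u2 : -(m * y) ≤ 6 / 100 := by nlinarith
    have u3 : 0 ≤ -(k * y) := by nlinarith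
    have t1 : -(2 + k + 6 / 100) ≤ (2 + k - m * y) * b := by nlinarith
    have t2 : 6 * k ≤ (2 * m - 2) * k := by nlinarith
    have t3 : 0 ≤ (-(k * y)) * k := mul_nonneg u3 (by linarith)
    have : 0 < (2 + k - m * y) * b - (2 - 2 * m + k * y) * k := by nlinarith
    exact this.ne'
  obtain ⟨f1, f2⟩ := solve_two g1 g2 hd
  rw [f1, f2] at e1 e2
  exact ⟨by linarith, by linarith, f2⟩

/-- one `C` and the first three sets -/
theorem case1 {a0 a1 a2 a3 s x y b : ℝ}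
    (hs : 2 ≤ s) (hs3 : s ≤ 3) (hx : x ≤ 0) (hx' : -(1 / 200) ≤ x)
    (hy : y ≤ 0) (hy' : -(1 / 100) ≤ y) (hb : b ≤ 1) (hb' : -1 ≤ b)
    (h1 : a0 + a1 * s + a2 * s ^ 2 + a3 * s ^ 3 = 0)
    (h2 : a0 + a1 * x + a2 = 0)
    (h3 : a0 + a1 * y + 2 * a2 + 2 * a3 = 0)
    (h4 : a0 + a3 * b = 0) : a1 = 0 ∧ a2 = 0 ∧ a3 = 0 := by
  have e0 : a0 = -(a3 * b) := by linarith
  have e2 : a2 = a3 * b - a1 * x := by linarith
  have g1 : (y - 2 * x) * a1 + (b + 2) * a3 = 0 := by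
    rw [e0, e2] at h3
    linarith
  have g2 : (s - x * s ^ 2) * a1 + (-b + b * s ^ 2 + s ^ 3) * a3 = 0 := by
    rw [e0, e2] at h1
    linarith
  have hs2 : 4 ≤ s ^ 2 := by nlinarith
  have hs2' : s ^ 2 ≤ 9 := by nlinarith
  have hs3' : s ^ 3 ≤ 27 := by nlinarith
  have hs3'' : 0 ≤ s ^ 3 := by positivity
  have hd : (y - 2 * x) * (-b + b * s ^ 2 + s ^ 3) - (b + 2) * (s - x * s ^ 2) ≠ 0 := by
    have u1 : y - 2 * x ≤ 1 / 100 := by linarith
    have u2 : -(1 / 100) ≤ y - 2 * x := by linarith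
    have u3 : -b + b * s ^ 2 + s ^ 3 ≤ 36 := by nlinarith
    have u4 : -36 ≤ -b + b * s ^ 2 + s ^ 3 := by nlinarith
    have u5 : (y - 2 * x) * (-b + b * s ^ 2 + s ^ 3) ≤ 36 / 100 := by
      rcases le_total 0 (y - 2 * x) with h | h
      · nlinarith
      · nlinarith
    have u6 : 2 ≤ s - x * s ^ 2 := by nlinarith
    have u7 : 2 ≤ (b + 2) * (s - x * s ^ 2) := by nlinarith
    have : (y - 2 * x) * (-b + b * s ^ 2 + s ^ 3) - (b + 2) * (s - x * s ^ 2) < 0 := by linarith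
    exact this.ne
  obtain ⟨f1, f2⟩ := solve_two g1 g2 hd
  rw [f1, f2] at e2
  exact ⟨f1, by linarith, f2⟩

end HyperplaneTransversals
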