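import Pool.Agent.Lib.MP_b2e5b9_co.Family

/-!
# The family is 2-separated
-/

set_option autoImplicit false

open scoped RealInnerProductSpace

namespace HyperplaneTransversals

/-- four distinct elements of a finite set of cardinality at least four -/
theorem exists_four {α : Type*} [DecidableEq α] {s : Finset α} (h : 4 ≤ s.card) :
    ∃ a ∈ s, ∃ b ∈ s, ∃ c ∈ s, ∃ e ∈ s, a ≠ b ∧ a ≠ c ∧ b ≠ c ∧ a ≠ e ∧ b ≠ e ∧ c ≠ e := by
  obtain ⟨e, he⟩ : s.Nonempty := by
    rw [← Finset.card_pos]
    omega
  have h3 : 2 < (s.erase e).card := by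
    rw [Finset.card_erase_of_mem he]
    omega
  obtain ⟨a, b, c, ha, hb, hc, hab, hac, hbc⟩ := Finset.two_lt_card_iff.1 h3
  rw [Finset.mem_erase] at ha hb hc
  exact ⟨a, ha.2, b, hb.2, c, hc.2, e, he, hab, hac, hbc, ha.1, hb.1, hc.1⟩

theorem fam_separated (n : ℕ) : Separated 2 (fam n) := by
  classical
  intro s hs
  rintro ⟨L, hL, hm⟩
  obtain ⟨a0, a1, a2, a3, hne, ha⟩ := exists_functional L hL
  apply hne
  -- the four kinds of members
  have kC : ∀ i ∈ s, 3 ≤ i.val → a0 + a1 * par i + a2 * par i ^ 2 + a3 * par i ^ 3 = 0 := by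
    intro i hi h3
    obtain ⟨x, hxL, hx⟩ := hm i hi
    have h0 : ¬ i.val = 0 := by omega
    have h1 : ¬ i.val = 1 := by omega
    have h2 : ¬ i.val = 2 := by omega
    simp only [fam, h0, h1, h2, if_false] at hx
    obtain ⟨e0, e2, e3⟩ := setC_coord hx
    have := ha x hxL
    rw [e0, e2, e3] at this
    exact this
  have kA : ∀ i ∈ s, i.val = 0 → ∃ x : ℝ, -(1 / 200) ≤ x ∧ x ≤ 0 ∧ a0 + a1 * x + a2 = 0 := by
    intro i hi h0
    obtain ⟨x, hxL, hx⟩ := hm i hi
    simp only [fam, h0, if_true] at hx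
    obtain ⟨e0, e0', e2, e3⟩ := setP_coord hx
    have := ha x hxL
    rw [e2, e3] at this
    exact ⟨x 0, e0, e0', by linarith⟩
  have kB : ∀ i ∈ s, i.val = 1 →
      ∃ y : ℝ, -(1 / 100) ≤ y ∧ y ≤ 0 ∧ a0 + a1 * y + 2 * a2 + 2 * a3 = 0 := by
    intro i hi h1
    obtain ⟨x, hxL, hx⟩ := hm i hi
    simp only [fam, h1, if_true, one_ne_zero, if_false] at hx
    obtain ⟨e0, e0', e2, e3⟩ := setQ_coord hx
    have := ha x hxL
    rw [e2, e3] at this
    exact ⟨x 0, e0, e0', by linarith⟩
  have kD : ∀ i ∈ s, i.val = 2 → ∃ b : ℝ, -1 ≤ b ∧ b ≤ 1 ∧ a0 + a3 * b = 0 := by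
    intro i hi h2
    obtain ⟨x, hxL, hx⟩ := hm i hi
    have h0 : ¬ i.val = 0 := by omega
    have h1 : ¬ i.val = 1 := by omega
    simp only [fam, h0, h1, h2, if_true, if_false] at hx
    obtain ⟨e3, e3', e0, -, e2⟩ := setB_coord hx
    have := ha x hxL
    rw [e0, e2] at this
    exact ⟨x 3, e3, e3', by linarith⟩
  -- counting
  set s' := s.filter (fun i : Fin n => 3 ≤ i.val) with hs'
  set r := (s.filter (fun i : Fin n => ¬ 3 ≤ i.val)) with hr
  have hcard : s'.card + r.card = 4 := by
    rw [hs', hr, Finset.card_filter_add_card_filter_not, hs]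
  have hs'm : ∀ i, i ∈ s' → i ∈ s ∧ 3 ≤ i.val := fun i hi => Finset.mem_filter.1 hi
  have hrm : ∀ i, i ∈ r → i ∈ s ∧ i.val < 3 := fun i hi => by
    have := Finset.mem_filter.1 hi
    exact ⟨this.1, by omega⟩
  have hrcard : r.card ≤ ((Finset.range 3).filter (fun k => ∃ i ∈ s, (i : Fin n).val = k)).card := by
    refine Finset.card_le_card_of_injOn (fun i : Fin n => i.val) ?_ ?_
    · intro i hi
      have h := hrm i (Finset.mem_coe.1 hi)
      rw [Finset.mem_coe, Finset.mem_filter, Finset.mem_range]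
      exact ⟨h.2, i, h.1, rfl⟩
    · intro i _ j _ h
      exact Fin.ext h
  by_cases q0 : ∃ i ∈ s, i.val = 0
  · obtain ⟨i0, hi0, h0⟩ := q0
    obtain ⟨x, hx', hx, hxe⟩ := kA i0 hi0 h0
    by_cases q1 : ∃ i ∈ s, i.val = 1
    · obtain ⟨i1, hi1, h1⟩ := q1
      obtain ⟨y, hy', hy, hye⟩ := kB i1 hi1 h1
      by_cases q2 : ∃ i ∈ s, i.val = 2
      · obtain ⟨i2, hi2, h2⟩ := q2
        obtain ⟨b, hb', hb, hbe⟩ := kD i2 hi2 h2
        have hr3 : r.card ≤ 3 := hrcard.trans ((Finset.card_filter_le _ _).trans (by simp))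
        obtain ⟨i, hi⟩ : s'.Nonempty := by
          rw [← Finset.card_pos]
          omega
        obtain ⟨his, hi3⟩ := hs'm i hi
        exact case1 (par_bounds i).1 (par_bounds i).2 hx hx' hy hy' hb hb' (kC i his hi3) hxe hye hbe
      · have hr2 : r.card ≤ 2 := by
          refine hrcard.trans ((Finset.card_le_card (t := {0, 1}) ?_).trans (by simp))
          intro k hk
          rw [Finset.mem_filter, Finset.mem_range] at hk
          have : k ≠ 2 := fun h => q2 (h ▸ hk.2)
          rw [Finset.mem_insert, Finset.mem_singleton]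
          omega
        obtain ⟨i, j, hi, hj, hij⟩ := Finset.one_lt_card_iff.1 (show 1 < s'.card by omega)
        obtain ⟨his, hi3⟩ := hs'm i hi
        obtain ⟨hjs, hj3⟩ := hs'm j hj
        exact case2ab (par_injective hij) (par_bounds i).1 (par_bounds j).1 (par_bounds i).2
          (par_bounds j).2 hx hx' hy hy' (kC i his hi3) (kC j hjs hj3) hxe hye
    · by_cases q2 : ∃ i ∈ s, i.val = 2
      · obtain ⟨i2, hi2, h2⟩ := q2
        obtain ⟨b, hb', hb, hbe⟩ := kD i2 hi2 h2
        have hr2 : r.card ≤ 2 := by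
          refine hrcard.trans ((Finset.card_le_card (t := {0, 2}) ?_).trans (by simp))
          intro k hk
          rw [Finset.mem_filter, Finset.mem_range] at hk
          have : k ≠ 1 := fun h => q1 (h ▸ hk.2)
          rw [Finset.mem_insert, Finset.mem_singleton]
          omega
        obtain ⟨i, j, hi, hj, hij⟩ := Finset.one_lt_card_iff.1 (show 1 < s'.card by omega)
        obtain ⟨his, hi3⟩ := hs'm i hi
        obtain ⟨hjs, hj3⟩ := hs'm j hj
        exact case2ac (par_injective hij) (par_bounds i).1 (par_bounds j).1 (par_bounds i).2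
          (par_bounds j).2 hx hx' hb hb' (kC i his hi3) (kC j hjs hj3) hxe hbe
      · have hr1 : r.card ≤ 1 := by
          refine hrcard.trans ((Finset.card_le_card (t := {0}) ?_).trans (by simp))
          intro k hk
          rw [Finset.mem_filter, Finset.mem_range] at hk
          have h1 : k ≠ 1 := fun h => q1 (h ▸ hk.2)
          have h2 : k ≠ 2 := fun h => q2 (h ▸ hk.2)
          rw [Finset.mem_singleton]
          omega
        obtain ⟨i, j, k, hi, hj, hk, hij, hik, hjk⟩ :=
          Finset.two_lt_card_iff.1 (show 2 < s'.card by omega)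
        obtain ⟨his, hi3⟩ := hs'm i hi
        obtain ⟨hjs, hj3⟩ := hs'm j hj
        obtain ⟨hks, hk3⟩ := hs'm k hk
        exact case3a (par_injective hij) (par_injective hik) (par_injective hjk)
          (par_bounds i).1 (par_bounds j).1 (par_bounds k).1 hx
          (kC i his hi3) (kC j hjs hj3) (kC k hks hk3) hxe
  · by_cases q1 : ∃ i ∈ s, i.val = 1
    · obtain ⟨i1, hi1, h1⟩ := q1
      obtain ⟨y, hy', hy, hye⟩ := kB i1 hi1 h1
      by_cases q2 : ∃ i ∈ s, i.val = 2
      · obtain ⟨i2, hi2, h2⟩ := q2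
        obtain ⟨b, hb', hb, hbe⟩ := kD i2 hi2 h2
        have hr2 : r.card ≤ 2 := by
          refine hrcard.trans ((Finset.card_le_card (t := {1, 2}) ?_).trans (by simp))
          intro k hk
          rw [Finset.mem_filter, Finset.mem_range] at hk
          have : k ≠ 0 := fun h => q0 (h ▸ hk.2)
          rw [Finset.mem_insert, Finset.mem_singleton]
          omega
        obtain ⟨i, j, hi, hj, hij⟩ := Finset.one_lt_card_iff.1 (show 1 < s'.card by omega)
        obtain ⟨his, hi3⟩ := hs'm i hi
        obtain ⟨hjs, hj3⟩ := hs'm j hj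
        exact case2bc (par_injective hij) (par_bounds i).1 (par_bounds j).1 (par_bounds i).2
          (par_bounds j).2 hy hy' hb' (kC i his hi3) (kC j hjs hj3) hye hbe
      · have hr1 : r.card ≤ 1 := by
          refine hrcard.trans ((Finset.card_le_card (t := {1}) ?_).trans (by simp))
          intro k hk
          rw [Finset.mem_filter, Finset.mem_range] at hk
          have h1 : k ≠ 0 := fun h => q0 (h ▸ hk.2)
          have h2 : k ≠ 2 := fun h => q2 (h ▸ hk.2)
          rw [Finset.mem_singleton]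
          omega
        obtain ⟨i, j, k, hi, hj, hk, hij, hik, hjk⟩ :=
          Finset.two_lt_card_iff.1 (show 2 < s'.card by omega)
        obtain ⟨his, hi3⟩ := hs'm i hi
        obtain ⟨hjs, hj3⟩ := hs'm j hj
        obtain ⟨hks, hk3⟩ := hs'm k hk
        exact case3b (par_injective hij) (par_injective hik) (par_injective hjk)
          (par_bounds i).1 (par_bounds j).1 (par_bounds k).1 hy
          (kC i his hi3) (kC j hjs hj3) (kC k hks hk3) hye
    · by_cases q2 : ∃ i ∈ s, i.val = 2
      · obtain ⟨i2, hi2, h2⟩ := q2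
        obtain ⟨b, hb', hb, hbe⟩ := kD i2 hi2 h2
        have hr1 : r.card ≤ 1 := by
          refine hrcard.trans ((Finset.card_le_card (t := {2}) ?_).trans (by simp))
          intro k hk
          rw [Finset.mem_filter, Finset.mem_range] at hk
          have h1 : k ≠ 0 := fun h => q0 (h ▸ hk.2)
          have h2 : k ≠ 1 := fun h => q1 (h ▸ hk.2)
          rw [Finset.mem_singleton]
          omega
        obtain ⟨i, j, k, hi, hj, hk, hij, hik, hjk⟩ :=
          Finset.two_lt_card_iff.1 (show 2 < s'.card by omega)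
        obtain ⟨his, hi3⟩ := hs'm i hi
        obtain ⟨hjs, hj3⟩ := hs'm j hj
        obtain ⟨hks, hk3⟩ := hs'm k hk
        exact case3c (par_injective hij) (par_injective hik) (par_injective hjk)
          (par_bounds i).1 (par_bounds j).1 (par_bounds k).1 hb
          (kC i his hi3) (kC j hjs hj3) (kC k hks hk3) hbe
      · have hr0 : r.card ≤ 0 := by
          refine hrcard.trans ((Finset.card_le_card (t := ∅) ?_).trans (by simp))
          intro k hk
          rw [Finset.mem_filter, Finset.mem_range] at hk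
          have h0 : k ≠ 0 := fun h => q0 (h ▸ hk.2)
          have h1 : k ≠ 1 := fun h => q1 (h ▸ hk.2)
          have h2 : k ≠ 2 := fun h => q2 (h ▸ hk.2)
          omega
        obtain ⟨i, hi, j, hj, k, hk, l, hl, hij, hik, hjk, hil, hjl, hkl⟩ :=
          exists_four (show 4 ≤ s'.card by omega)
        obtain ⟨his, hi3⟩ := hs'm i hi
        obtain ⟨hjs, hj3⟩ := hs'm j hj
        obtain ⟨hks, hk3⟩ := hs'm k hk
        obtain ⟨hls, hl3⟩ := hs'm l hl
        exact case4 (par_injective hij) (par_injective hik) (par_injective hjk)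
          (par_injective hil) (par_injective hjl) (par_injective hkl)
          (kC i his hi3) (kC j hjs hj3) (kC k hks hk3) (kC l hls hl3)

end HyperplaneTransversals
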